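import Mathlib

/-!
# Two diagonal maps: covering and separation in anisotropic norms
-/

set_option autoImplicit false

open Set MeasureTheory Metric
open scoped ENNReal

namespace Pool.Agent.H60.AL

/-- Euclidean space of dimension `d`. -/
abbrev E (d : ℕ) := EuclideanSpace ℝ (Fin d)

/-- The least number of sets of diameter at most `r` which cover `S` (`∞` if there is no finite
cover). -/
noncomputable def covN {d : ℕ} (r : ℝ) (S : Set (E d)) : ℝ≥0∞ :=
  ⨅ (U : Finset (Set (E d))) (_ : (∀ u ∈ U, ∀ x ∈ u, ∀ y ∈ u, dist x y ≤ r) ∧ S ⊆ ⋃ u ∈ U, u),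
    (U.card : ℝ≥0∞)

/-- The Assouad dimension. -/
noncomputable def dimA {d : ℕ} (F : Set (E d)) : ℝ≥0∞ :=
  ⨅ (s : ℝ) (_ : 0 ≤ s ∧ ∃ C : ℝ, 0 < C ∧ ∀ x ∈ F, ∀ r R : ℝ, 0 < r → r < R →
    covN r (ball x R ∩ F) ≤ ENNReal.ofReal (C * (R / r) ^ s)), ENNReal.ofReal s

/-- The lower dimension. -/
noncomputable def dimL {d : ℕ} (F : Set (E d)) : ℝ≥0∞ :=
  ⨆ (s : ℝ) (_ : 0 ≤ s ∧ ∃ C : ℝ, 0 < C ∧ ∀ x ∈ F, ∀ r R : ℝ, 0 < r → r < R → R ≤ diam F →
    ENNReal.ofReal (C * (R / r) ^ s) ≤ covN r (ball x R ∩ F)), ENNReal.ofReal s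

/-- `F` is a nonempty compact set with `F = ⋃ i, (A i F + t i)`. -/
def IsAttractor {d m : ℕ} (A : Fin m → E d →L[ℝ] E d) (t : Fin m → E d) (F : Set (E d)) : Prop :=
  F.Nonempty ∧ IsCompact F ∧ F = ⋃ i, (fun x => A i x + t i) '' F

/-- The diagonal map with the entry `a` in the place `i0` and `b` in the other places. -/
noncomputable def dg {d : ℕ} (i0 : Fin d) (a b : ℝ) : E d →L[ℝ] E d :=
  LinearMap.toContinuousLinearMap
    { toFun := fun x => WithLp.toLp 2 (fun i => (if i = i0 then a else b) * x i)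
      map_add' := fun x y => by ext i; simp [mul_add]
      map_smul' := fun r x => by ext i; simp; split_ifs <;> ring }

variable {d : ℕ} {i0 i1 : Fin d}

lemma dg_apply (a b : ℝ) (x : E d) (i : Fin d) :
    dg i0 a b x i = (if i = i0 then a else b) * x i := rfl

lemma dg_dg (a b a' b' : ℝ) (x : E d) : dg i0 a b (dg i0 a' b' x) = dg i0 (a * a') (b * b') x := by
  ext i
  simp only [dg_apply]
  split_ifs <;> ring

lemma dg_smul (c a b : ℝ) (x : E d) : dg i0 (c * a) (c * b) x = c • dg i0 a b x := by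
  ext i
  simp only [dg_apply, PiLp.smul_apply, smul_eq_mul]
  split_ifs <;> ring

lemma dg_one (x : E d) : dg i0 1 1 x = x := by
  ext i
  simp [dg_apply]

lemma norm_dg_le {a b : ℝ} (ha : 0 ≤ a) (hb : 0 ≤ b) (x : E d) :
    ‖dg i0 a b x‖ ≤ max a b * ‖x‖ := by
  have hm : 0 ≤ max a b := le_max_of_le_left ha
  refine (sq_le_sq₀ (norm_nonneg _) (by positivity)).1 ?_
  rw [mul_pow, EuclideanSpace.real_norm_sq_eq, EuclideanSpace.real_norm_sq_eq, Finset.mul_sum]
  refine Finset.sum_le_sum fun i _ => ?_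
  rw [dg_apply, mul_pow]
  refine mul_le_mul_of_nonneg_right ?_ (sq_nonneg _)
  split_ifs
  · exact pow_le_pow_left₀ ha (le_max_left _ _) 2
  · exact pow_le_pow_left₀ hb (le_max_right _ _) 2

lemma abs_coord_le (x : E d) (i : Fin d) : |x i| ≤ ‖x‖ := by
  simpa [Real.norm_eq_abs] using PiLp.norm_apply_le x i

lemma le_norm_dg0 {a b : ℝ} (ha : 0 ≤ a) (x : E d) : a * |x i0| ≤ ‖dg i0 a b x‖ := by
  refine le_trans (le_of_eq ?_) (abs_coord_le _ i0)
  rw [dg_apply, if_pos rfl, abs_mul, abs_of_nonneg ha]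

lemma le_norm_dg1 (hne : i1 ≠ i0) {a b : ℝ} (hb : 0 ≤ b) (x : E d) :
    b * |x i1| ≤ ‖dg i0 a b x‖ := by
  refine le_trans (le_of_eq ?_) (abs_coord_le _ i1)
  rw [dg_apply, if_neg hne, abs_mul, abs_of_nonneg hb]

/-- A compact set `F` which is the union of its images under two maps with diagonal linear parts,
and which is separated in two coordinates. -/
structure Sys (i0 i1 : Fin d) (lam : ℝ) (μ : Fin 2 → ℝ) (g D : ℝ) (S : Fin 2 → E d → E d)
    (F : Set (E d)) : Prop where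
  hne : i1 ≠ i0
  lam0 : 0 < lam
  lam1 : lam < 1 / 2
  mu0 : ∀ b, 0 < μ b
  mu1 : ∀ b, μ b < 1 / 2
  sub : ∀ b x y, S b x - S b y = dg i0 lam (μ b) (x - y)
  mem : ∀ b, ∀ x ∈ F, S b x ∈ F
  cov : ∀ x ∈ F, ∃ b, ∃ y ∈ F, x = S b y
  gap : ∀ b c, b ≠ c → ∀ p ∈ F, ∀ q ∈ F, g ≤ |(S b p - S c q) i0| ∧ g ≤ |(S b p - S c q) i1|
  g0 : 0 < g
  hD : ∀ x ∈ F, ∀ y ∈ F, ‖x - y‖ ≤ D
  non : F.Nonempty

section sys

variable {lam : ℝ} {μ : Fin 2 → ℝ} {g D : ℝ} {S : Fin 2 → E d → E d} {F : Set (E d)}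

lemma Sys.gap_norm (h : Sys i0 i1 lam μ g D S F) {a b : ℝ} (ha : 0 ≤ a) (hb : 0 ≤ b) {c c' : Fin 2}
    (hc : c ≠ c') {p q : E d} (hp : p ∈ F) (hq : q ∈ F) :
    g * max a b ≤ ‖dg i0 a b (S c p - S c' q)‖ := by
  obtain ⟨h1, h2⟩ := h.gap c c' hc p hp q hq
  rcases le_total a b with hab | hab
  · rw [max_eq_right hab]
    calc g * b ≤ |(S c p - S c' q) i1| * b := by gcongr
      _ = b * |(S c p - S c' q) i1| := mul_comm _ _
      _ ≤ _ := le_norm_dg1 h.hne hb _
  · rw [max_eq_left hab]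
    calc g * a ≤ |(S c p - S c' q) i0| * a := by gcongr
      _ = a * |(S c p - S c' q) i0| := mul_comm _ _
      _ ≤ _ := le_norm_dg0 ha _

lemma Sys.gD (h : Sys i0 i1 lam μ g D S F) : g ≤ D := by
  obtain ⟨x, hx⟩ := h.non
  have h1 := h.gap_norm (a := 1) (b := 1) zero_le_one zero_le_one (c := 0) (c' := 1) (by decide) hx hx
  rw [dg_one, max_self, mul_one] at h1
  exact h1.trans (h.hD _ (h.mem 0 x hx) _ (h.mem 1 x hx))

lemma Sys.D0 (h : Sys i0 i1 lam μ g D S F) : 0 < D := h.g0.trans_le h.gD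

lemma Sys.child (h : Sys i0 i1 lam μ g D S F) (a b : ℝ) (c : Fin 2) (x y : E d) :
    dg i0 a b (S c x - S c y) = dg i0 (a * lam) (b * μ c) (x - y) := by
  rw [h.sub, dg_dg]

/-- Covers. -/
lemma Sys.cover (h : Sys i0 i1 lam μ g D S F) {s t : ℝ} (hs : 0 < s) (hst : s < t) (ht : t < 1)
    (e1 : 2 * lam ^ t = 1) (e2 : μ 0 ^ s + μ 1 ^ s = 1) {κ : ℝ} (hκ0 : 0 < κ) (hκ1 : κ ≤ 1)
    (hκl : κ ≤ lam) (hκm : ∀ b, κ ≤ μ b) (n : ℕ) :
    ∀ a b : ℝ, 0 < a → 0 < b → max a b ≤ 2 ^ n → κ ≤ max a b →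
      ∃ U : Finset (Set (E d)), (U.card : ℝ) ≤ κ⁻¹ * (a ^ t + b ^ s) ∧ (∀ u ∈ U, u ⊆ F) ∧
        (∀ u ∈ U, ∀ x ∈ u, ∀ y ∈ u, ‖dg i0 a b (x - y)‖ ≤ D) ∧ ∀ x ∈ F, ∃ u ∈ U, x ∈ u := by
  classical
  have base : ∀ a b : ℝ, 0 < a → 0 < b → max a b ≤ 1 → κ ≤ max a b →
      ∃ U : Finset (Set (E d)), (U.card : ℝ) ≤ κ⁻¹ * (a ^ t + b ^ s) ∧ (∀ u ∈ U, u ⊆ F) ∧
        (∀ u ∈ U, ∀ x ∈ u, ∀ y ∈ u, ‖dg i0 a b (x - y)‖ ≤ D) ∧ ∀ x ∈ F, ∃ u ∈ U, x ∈ u := by
    intro a b ha hb hab hκ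
    refine ⟨{F}, ?_, by simp, ?_, by simp⟩
    · have hat : 0 < a ^ t := Real.rpow_pos_of_pos ha t
      have hbs : 0 < b ^ s := Real.rpow_pos_of_pos hb s
      have key : κ ≤ a ^ t + b ^ s := by
        rcases le_max_iff.1 hκ with h1 | h1
        · have h2 : κ ^ (1 : ℝ) ≤ κ ^ t := Real.rpow_le_rpow_of_exponent_ge hκ0 hκ1 ht.le
          have h3 : κ ^ t ≤ a ^ t := Real.rpow_le_rpow hκ0.le h1 (by linarith)
          rw [Real.rpow_one] at h2
          linarith
        · have h2 : κ ^ (1 : ℝ) ≤ κ ^ s := Real.rpow_le_rpow_of_exponent_ge hκ0 hκ1 (by linarith)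
          have h3 : κ ^ s ≤ b ^ s := Real.rpow_le_rpow hκ0.le h1 hs.le
          rw [Real.rpow_one] at h2
          linarith
      rw [Finset.card_singleton, Nat.cast_one, ← inv_mul_cancel₀ hκ0.ne']
      gcongr
    · simp only [Finset.mem_singleton]
      rintro u rfl x hx y hy
      refine (norm_dg_le ha.le hb.le _).trans ?_
      have := h.hD x hx y hy
      have h3 := norm_nonneg (x - y)
      nlinarith
  induction n with
  | zero => intro a b ha hb h1 h2; exact base a b ha hb (by simpa using h1) h2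
  | succ n ih =>
    intro a b ha hb h1 h2
    by_cases h3 : max a b ≤ 1
    · exact base a b ha hb h3 h2
    push Not at h3
    have hch : ∀ c : Fin 2, max (a * lam) (b * μ c) ≤ 2 ^ n ∧ κ ≤ max (a * lam) (b * μ c) := by
      intro c
      have hl := h.lam1
      have hm := h.mu1 c
      have hm0 := h.mu0 c
      have hl0 := h.lam0
      rw [pow_succ] at h1
      have ha' := (le_max_left a b).trans h1
      have hb' := (le_max_right a b).trans h1
      constructor
      · refine max_le ?_ ?_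
        · have : a * lam ≤ a * (1 / 2) := by gcongr
          linarith
        · have : b * μ c ≤ b * (1 / 2) := by gcongr
          linarith
      · rcases lt_max_iff.1 h3 with h4 | h4
        · refine le_max_of_le_left (hκl.trans ?_)
          nlinarith
        · refine le_max_of_le_right ((hκm c).trans ?_)
          nlinarith
    obtain ⟨U, a1, a2, a3, a4⟩ := ih (a * lam) (b * μ 0) (mul_pos ha h.lam0) (mul_pos hb (h.mu0 0))
      (hch 0).1 (hch 0).2
    obtain ⟨V, b1, b2, b3, b4⟩ := ih (a * lam) (b * μ 1) (mul_pos ha h.lam0) (mul_pos hb (h.mu0 1))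
      (hch 1).1 (hch 1).2
    refine ⟨U.image (S 0 '' ·) ∪ V.image (S 1 '' ·), ?_, ?_, ?_, ?_⟩
    · have c1 : (U.image (S 0 '' ·) ∪ V.image (S 1 '' ·)).card ≤ U.card + V.card :=
        (Finset.card_union_le _ _).trans (add_le_add Finset.card_image_le Finset.card_image_le)
      have c2 : ((U.image (S 0 '' ·) ∪ V.image (S 1 '' ·)).card : ℝ) ≤ U.card + V.card := by
        exact_mod_cast c1
      rw [Real.mul_rpow ha.le h.lam0.le, Real.mul_rpow hb.le (h.mu0 _).le] at a1 b1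
      have c3 : κ⁻¹ * (a ^ t * lam ^ t + b ^ s * μ 0 ^ s) + κ⁻¹ * (a ^ t * lam ^ t + b ^ s * μ 1 ^ s) =
          κ⁻¹ * (a ^ t * (2 * lam ^ t) + b ^ s * (μ 0 ^ s + μ 1 ^ s)) := by ring
      rw [e1, e2, mul_one, mul_one] at c3
      linarith
    · simp only [Finset.mem_union, Finset.mem_image]
      rintro _ (⟨u, hu, rfl⟩ | ⟨u, hu, rfl⟩) _ ⟨x, hx, rfl⟩
      exacts [h.mem 0 x (a2 u hu hx), h.mem 1 x (b2 u hu hx)]
    · simp only [Finset.mem_union, Finset.mem_image]
      rintro _ (⟨u, hu, rfl⟩ | ⟨u, hu, rfl⟩) _ ⟨x, hx, rfl⟩ _ ⟨y, hy, rfl⟩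
      · rw [h.child]; exact a3 u hu x hx y hy
      · rw [h.child]; exact b3 u hu x hx y hy
    · intro x hx
      simp only [Finset.mem_union, Finset.mem_image]
      obtain ⟨c, y, hy, rfl⟩ := h.cov x hx
      fin_cases c
      · obtain ⟨u, hu, hy⟩ := a4 y hy
        exact ⟨_, Or.inl ⟨u, hu, rfl⟩, y, hy, rfl⟩
      · obtain ⟨u, hu, hy⟩ := b4 y hy
        exact ⟨_, Or.inr ⟨u, hu, rfl⟩, y, hy, rfl⟩

/-- Covers, for all pairs `(a, b)`. -/
lemma Sys.cover' (h : Sys i0 i1 lam μ g D S F) {s t : ℝ} (hs : 0 < s) (hst : s < t) (ht : t < 1)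
    (e1 : 2 * lam ^ t = 1) (e2 : μ 0 ^ s + μ 1 ^ s = 1) {κ : ℝ} (hκ0 : 0 < κ) (hκ1 : κ ≤ 1)
    (hκl : κ ≤ lam) (hκm : ∀ b, κ ≤ μ b) {a b : ℝ} (ha : 0 < a) (hb : 0 < b) :
      ∃ U : Finset (Set (E d)), (U.card : ℝ) ≤ 1 + κ⁻¹ * (a ^ t + b ^ s) ∧ (∀ u ∈ U, u ⊆ F) ∧
        (∀ u ∈ U, ∀ x ∈ u, ∀ y ∈ u, ‖dg i0 a b (x - y)‖ ≤ D) ∧ ∀ x ∈ F, ∃ u ∈ U, x ∈ u := by
  have hat : 0 < a ^ t := Real.rpow_pos_of_pos ha t
  have hbs : 0 < b ^ s := Real.rpow_pos_of_pos hb s
  rcases le_or_gt κ (max a b) with h1 | h1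
  · obtain ⟨n, hn⟩ := pow_unbounded_of_one_lt (max a b) (one_lt_two (α := ℝ))
    obtain ⟨U, h2, h3⟩ := h.cover hs hst ht e1 e2 hκ0 hκ1 hκl hκm n a b ha hb hn.le h1
    exact ⟨U, by linarith, h3⟩
  · refine ⟨{F}, ?_, by simp, ?_, by simp⟩
    · rw [Finset.card_singleton, Nat.cast_one]
      have : 0 ≤ κ⁻¹ * (a ^ t + b ^ s) := by positivity
      linarith
    · simp only [Finset.mem_singleton]
      rintro u rfl x hx y hy
      refine (norm_dg_le ha.le hb.le _).trans ?_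
      have := h.hD x hx y hy
      have h3 := norm_nonneg (x - y)
      nlinarith

/-- Separated sets. -/
lemma Sys.sep (h : Sys i0 i1 lam μ g D S F) {s t : ℝ} (hs : 0 < s) (hst : s < t)
    (e1 : 2 * lam ^ t = 1) (e2 : μ 0 ^ s + μ 1 ^ s = 1) (n : ℕ) :
    ∀ a b : ℝ, 0 < a → 0 < b → max a b ≤ 2 ^ n →
      ∃ P : Finset (E d), P.Nonempty ∧ (∀ p ∈ P, p ∈ F) ∧
        (∀ p ∈ P, ∀ q ∈ P, p ≠ q → g < ‖dg i0 a b (p - q)‖) ∧ a ^ t ≤ P.card ∧ b ^ s ≤ P.card := by
  classical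
  have base : ∀ a b : ℝ, 0 < a → 0 < b → max a b ≤ 1 →
      ∃ P : Finset (E d), P.Nonempty ∧ (∀ p ∈ P, p ∈ F) ∧
        (∀ p ∈ P, ∀ q ∈ P, p ≠ q → g < ‖dg i0 a b (p - q)‖) ∧ a ^ t ≤ P.card ∧ b ^ s ≤ P.card := by
    intro a b ha hb hab
    obtain ⟨x, hx⟩ := h.non
    refine ⟨{x}, by simp, by simpa, by simp, ?_, ?_⟩
    · rw [Finset.card_singleton, Nat.cast_one]
      exact Real.rpow_le_one ha.le ((le_max_left _ _).trans hab) (by linarith)
    · rw [Finset.card_singleton, Nat.cast_one]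
      exact Real.rpow_le_one hb.le ((le_max_right _ _).trans hab) hs.le
  induction n with
  | zero => intro a b ha hb h1; exact base a b ha hb (by simpa using h1)
  | succ n ih =>
    intro a b ha hb h1
    by_cases h3 : max a b ≤ 1
    · exact base a b ha hb h3
    push Not at h3
    have hch : ∀ c : Fin 2, max (a * lam) (b * μ c) ≤ 2 ^ n := by
      intro c
      have hl := h.lam1
      have hm := h.mu1 c
      have hm0 := h.mu0 c
      have hl0 := h.lam0
      rw [pow_succ] at h1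
      have ha' := (le_max_left a b).trans h1
      have hb' := (le_max_right a b).trans h1
      refine max_le ?_ ?_
      · have : a * lam ≤ a * (1 / 2) := by gcongr
        linarith
      · have : b * μ c ≤ b * (1 / 2) := by gcongr
        linarith
    obtain ⟨P, a0, a1, a2, a3, a4⟩ := ih (a * lam) (b * μ 0) (mul_pos ha h.lam0)
      (mul_pos hb (h.mu0 0)) (hch 0)
    obtain ⟨Q, b0, b1, b2, b3, b4⟩ := ih (a * lam) (b * μ 1) (mul_pos ha h.lam0)
      (mul_pos hb (h.mu0 1)) (hch 1)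
    have hgg := h.g0
    have inj : ∀ c : Fin 2, Function.Injective (S c) := by
      intro c x y hxy
      have h5 := h.sub c x y
      rw [hxy, sub_self] at h5
      have h6 : ∀ i, x i - y i = 0 := by
        intro i
        have h7 := congrArg (fun z : E d => z i) h5
        simp only [dg_apply, PiLp.zero_apply, PiLp.sub_apply] at h7
        have h8 : (if i = i0 then lam else μ c) ≠ 0 := by
          split_ifs
          · exact h.lam0.ne'
          · exact (h.mu0 c).ne'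
        exact (mul_eq_zero.1 h7.symm).resolve_left h8
      ext i
      linarith [h6 i]
    have cross : ∀ c c' : Fin 2, c ≠ c' → ∀ p ∈ F, ∀ q ∈ F, g < ‖dg i0 a b (S c p - S c' q)‖ := by
      intro c c' hcc p hp q hq
      refine lt_of_lt_of_le ?_ (h.gap_norm ha.le hb.le hcc hp hq)
      nlinarith
    have hdisj : Disjoint (P.image (S 0)) (Q.image (S 1)) := by
      rw [Finset.disjoint_left]
      simp only [Finset.mem_image]
      rintro _ ⟨p, hp, rfl⟩ ⟨q, hq, e⟩
      have h4 := cross 0 1 (by decide) p (a1 p hp) q (b1 q hq)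
      rw [e, sub_self, map_zero, norm_zero] at h4
      linarith
    have hcard : ((P.image (S 0) ∪ Q.image (S 1)).card : ℝ) = P.card + Q.card := by
      rw [Finset.card_union_of_disjoint hdisj, Finset.card_image_of_injective _ (inj 0),
        Finset.card_image_of_injective _ (inj 1)]
      push_cast
      ring
    refine ⟨P.image (S 0) ∪ Q.image (S 1), ?_, ?_, ?_, ?_, ?_⟩
    · obtain ⟨p, hp⟩ := a0
      exact ⟨S 0 p, Finset.mem_union_left _ (Finset.mem_image_of_mem _ hp)⟩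
    · simp only [Finset.mem_union, Finset.mem_image]
      rintro _ (⟨p, hp, rfl⟩ | ⟨p, hp, rfl⟩)
      exacts [h.mem 0 p (a1 p hp), h.mem 1 p (b1 p hp)]
    · simp only [Finset.mem_union, Finset.mem_image]
      rintro _ (⟨p, hp, rfl⟩ | ⟨p, hp, rfl⟩) _ (⟨q, hq, rfl⟩ | ⟨q, hq, rfl⟩) hne
      · rw [h.child]; exact a2 p hp q hq fun e => hne (e ▸ rfl)
      · exact cross 0 1 (by decide) p (a1 p hp) q (b1 q hq)
      · exact cross 1 0 (by decide) p (b1 p hp) q (a1 q hq)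
      · rw [h.child]; exact b2 p hp q hq fun e => hne (e ▸ rfl)
    · rw [hcard]
      rw [Real.mul_rpow ha.le h.lam0.le] at a3 b3
      have c3 : a ^ t * lam ^ t + a ^ t * lam ^ t = a ^ t * (2 * lam ^ t) := by ring
      rw [e1, mul_one] at c3
      linarith
    · rw [hcard]
      rw [Real.mul_rpow hb.le (h.mu0 _).le] at a4 b4
      have c3 : b ^ s * μ 0 ^ s + b ^ s * μ 1 ^ s = b ^ s * (μ 0 ^ s + μ 1 ^ s) := by ring
      rw [e2, mul_one] at c3
      linarith

/-- Separated sets, for all pairs `(a, b)`. -/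
lemma Sys.sep' (h : Sys i0 i1 lam μ g D S F) {s t : ℝ} (hs : 0 < s) (hst : s < t)
    (e1 : 2 * lam ^ t = 1) (e2 : μ 0 ^ s + μ 1 ^ s = 1) {a b : ℝ} (ha : 0 < a) (hb : 0 < b) :
      ∃ P : Finset (E d), P.Nonempty ∧ (∀ p ∈ P, p ∈ F) ∧
        (∀ p ∈ P, ∀ q ∈ P, p ≠ q → g < ‖dg i0 a b (p - q)‖) ∧ a ^ t ≤ P.card ∧ b ^ s ≤ P.card := by
  obtain ⟨n, hn⟩ := pow_unbounded_of_one_lt (max a b) (one_lt_two (α := ℝ))
  exact h.sep hs hst e1 e2 n a b ha hb hn.le

/-! ### Words -/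

/-- The composition of the maps along a word. -/
def Sw (S : Fin 2 → E d → E d) : List (Fin 2) → E d → E d
  | [], x => x
  | b :: w, x => S b (Sw S w x)

/-- The product of the numbers along a word. -/
def mw (μ : Fin 2 → ℝ) (w : List (Fin 2)) : ℝ := (w.map μ).prod

lemma mw_pos (h : Sys i0 i1 lam μ g D S F) (w : List (Fin 2)) : 0 < mw μ w := by
  unfold mw
  induction w with
  | nil => simp
  | cons b w ih => rw [List.map_cons, List.prod_cons]; exact mul_pos (h.mu0 b) ih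

lemma Sw_mem (h : Sys i0 i1 lam μ g D S F) (w : List (Fin 2)) {x : E d} (hx : x ∈ F) :
    Sw S w x ∈ F := by
  induction w with
  | nil => exact hx
  | cons b w ih => exact h.mem b _ ih

lemma Sw_sub (h : Sys i0 i1 lam μ g D S F) (w : List (Fin 2)) (x y : E d) :
    Sw S w x - Sw S w y = dg i0 (lam ^ w.length) (mw μ w) (x - y) := by
  induction w with
  | nil => simp [Sw, mw, dg_one]
  | cons b w ih =>
    simp only [Sw]
    rw [h.sub, ih, dg_dg]
    simp only [mw, List.map_cons, List.prod_cons, List.length_cons]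
    rw [pow_succ']

/-- A ball is contained in a cylinder. -/
lemma Sys.inCyl (h : Sys i0 i1 lam μ g D S F) {R : ℝ} (hR : 0 < R) (n : ℕ) :
    ∀ a b : ℝ, 0 < a → 0 < b → g * max a b ≤ R * 2 ^ n → ∀ x ∈ F,
      ∃ w : List (Fin 2), g * max (a * lam ^ w.length) (b * mw μ w) ≤ R ∧
        ∀ p ∈ F, ‖dg i0 a b (p - x)‖ < R → ∃ p' ∈ F, p = Sw S w p' := by
  induction n with
  | zero =>
    intro a b ha hb h1 x hx
    refine ⟨[], by simpa [mw] using h1, fun p hp _ => ⟨p, hp, rfl⟩⟩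
  | succ n ih =>
    intro a b ha hb h1 x hx
    by_cases h2 : g * max a b ≤ R
    · exact ⟨[], by simpa [mw] using h2, fun p hp _ => ⟨p, hp, rfl⟩⟩
    push Not at h2
    obtain ⟨c, y, hy, rfl⟩ := h.cov x hx
    have hch : g * max (a * lam) (b * μ c) ≤ R * 2 ^ n := by
      have hl := h.lam1
      have hm := h.mu1 c
      have hm0 := h.mu0 c
      have hl0 := h.lam0
      have hg := h.g0
      have h3 : max (a * lam) (b * μ c) ≤ max a b * (1 / 2) := by
        refine max_le ?_ ?_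
        · have := le_max_left a b
          gcongr
        · have := le_max_right a b
          gcongr
      have h4 : g * max (a * lam) (b * μ c) ≤ g * (max a b * (1 / 2)) := by gcongr
      rw [pow_succ] at h1
      linarith
    obtain ⟨w, hw1, hw2⟩ := ih (a * lam) (b * μ c) (mul_pos ha h.lam0) (mul_pos hb (h.mu0 c)) hch y hy
    refine ⟨c :: w, ?_, fun p hp hpx => ?_⟩
    · simp only [mw, List.map_cons, List.prod_cons, List.length_cons] at hw1 ⊢
      rw [pow_succ', ← mul_assoc, ← mul_assoc]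
      exact hw1
    · obtain ⟨c', y', hy', rfl⟩ := h.cov p hp
      by_cases hcc : c' = c
      · subst hcc
        rw [h.child] at hpx
        obtain ⟨p', hp', e⟩ := hw2 y' hy' hpx
        exact ⟨p', hp', by rw [e]; rfl⟩
      · exfalso
        have := h.gap_norm ha.le hb.le hcc hy' hy
        linarith

/-- A ball contains a cylinder. -/
lemma Sys.cylIn (h : Sys i0 i1 lam μ g D S F) {κ : ℝ} (hκl : κ ≤ lam)
    (hκm : ∀ b, κ ≤ μ b) {R D' : ℝ} (hR : 0 < R) (hD' : 0 < D') (n : ℕ) :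
    ∀ a b : ℝ, 0 < a → 0 < b → D' * max a b ≤ R * 2 ^ n → κ * R ≤ D' * max a b → ∀ x ∈ F,
      ∃ w : List (Fin 2), ∃ y ∈ F, x = Sw S w y ∧
        D' * max (a * lam ^ w.length) (b * mw μ w) ≤ R ∧
        κ * R ≤ D' * max (a * lam ^ w.length) (b * mw μ w) := by
  induction n with
  | zero =>
    intro a b ha hb h1 h2 x hx
    exact ⟨[], x, hx, rfl, by simpa [mw] using h1, by simpa [mw] using h2⟩
  | succ n ih =>
    intro a b ha hb h1 h2 x hx
    by_cases h3 : D' * max a b ≤ R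
    · exact ⟨[], x, hx, rfl, by simpa [mw] using h3, by simpa [mw] using h2⟩
    push Not at h3
    obtain ⟨c, y, hy, rfl⟩ := h.cov x hx
    have hl := h.lam1
    have hm := h.mu1 c
    have hm0 := h.mu0 c
    have hl0 := h.lam0
    have hch : D' * max (a * lam) (b * μ c) ≤ R * 2 ^ n := by
      have h3 : max (a * lam) (b * μ c) ≤ max a b * (1 / 2) := by
        refine max_le ?_ ?_
        · have := le_max_left a b
          gcongr
        · have := le_max_right a b
          gcongr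
      have h4 : D' * max (a * lam) (b * μ c) ≤ D' * (max a b * (1 / 2)) := by gcongr
      rw [pow_succ] at h1
      linarith
    have hch2 : κ * R ≤ D' * max (a * lam) (b * μ c) := by
      have h5 : max a b * κ ≤ max (a * lam) (b * μ c) := by
        rcases le_total a b with hab | hab
        · rw [max_eq_right hab]
          refine le_max_of_le_right ?_
          have := hκm c
          gcongr
        · rw [max_eq_left hab]
          refine le_max_of_le_left ?_
          gcongr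
      rcases le_or_gt κ 0 with hk | hk
      · have : 0 ≤ D' * max (a * lam) (b * μ c) := by positivity
        nlinarith
      · calc κ * R ≤ κ * (D' * max a b) := by gcongr
          _ = D' * (max a b * κ) := by ring
          _ ≤ _ := by gcongr
    obtain ⟨w, y', hy', e, hw1, hw2⟩ :=
      ih (a * lam) (b * μ c) (mul_pos ha h.lam0) (mul_pos hb (h.mu0 c)) hch hch2 y hy
    refine ⟨c :: w, y', hy', by rw [e]; rfl, ?_, ?_⟩
    · simp only [mw, List.map_cons, List.prod_cons, List.length_cons] at hw1 ⊢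
      rw [pow_succ', ← mul_assoc, ← mul_assoc]
      exact hw1
    · simp only [mw, List.map_cons, List.prod_cons, List.length_cons] at hw2 ⊢
      rw [pow_succ', ← mul_assoc, ← mul_assoc]
      exact hw2

/-- The cylinders of the words `1 ... 1`. -/
lemma Sys.near (h : Sys i0 i1 lam μ g D S F) (k : ℕ) :
    ∀ a b : ℝ, 0 < a → 0 < b → ∀ q ∈ F, ∀ p ∈ F,
      ‖dg i0 a b (p - Sw S (List.replicate k 1) q)‖ < g * (b * μ 1 ^ k) →
        ∃ p' ∈ F, p = Sw S (List.replicate k 1) p' := by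
  induction k with
  | zero => intro a b _ _ q _ p hp _; exact ⟨p, hp, rfl⟩
  | succ k ih =>
    intro a b ha hb q hq p hp hlt
    obtain ⟨c, y, hy, rfl⟩ := h.cov p hp
    rw [List.replicate_succ] at hlt ⊢
    simp only [Sw] at hlt
    by_cases hc : c = 1
    · subst hc
      rw [h.child] at hlt
      obtain ⟨p', hp', e⟩ := ih (a * lam) (b * μ 1) (mul_pos ha h.lam0) (mul_pos hb (h.mu0 1)) q hq y hy
        (by rw [mul_assoc b, ← pow_succ']; exact hlt)
      exact ⟨p', hp', by rw [e]; rfl⟩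
    · exfalso
      have h1 := h.gap_norm ha.le hb.le hc hy (Sw_mem h (List.replicate k 1) hq)
      have h2 : μ 1 ^ (k + 1) ≤ 1 := pow_le_one₀ (h.mu0 1).le (by linarith [h.mu1 1])
      have h3 : g * (b * μ 1 ^ (k + 1)) ≤ g * max a b := by
        have := h.g0
        gcongr
        have := le_max_right a b
        nlinarith
      linarith

lemma mw_replicate (k : ℕ) : mw μ (List.replicate k 1) = μ 1 ^ k := by
  simp [mw]

end sys

end Pool.Agent.H60.AL
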