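import Pool.Agent.H60.AL.Core

/-!
# The Assouad and the lower dimension of the attractor of two diagonal maps
-/

set_option autoImplicit false

open Set MeasureTheory Metric
open scoped ENNReal

namespace Pool.Agent.H60.AL

variable {d : ℕ} {i0 i1 : Fin d}

lemma covN_le {r : ℝ} {T : Set (E d)} (U : Finset (Set (E d)))
    (h1 : ∀ u ∈ U, ∀ x ∈ u, ∀ y ∈ u, dist x y ≤ r) (h2 : T ⊆ ⋃ u ∈ U, u) :
    covN r T ≤ (U.card : ℝ≥0∞) := iInf₂_le U ⟨h1, h2⟩

lemma le_covN {r : ℝ} {T : Set (E d)} (P : Finset (E d)) (hP : ∀ p ∈ P, p ∈ T)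
    (hs : ∀ p ∈ P, ∀ q ∈ P, p ≠ q → r < dist p q) : (P.card : ℝ≥0∞) ≤ covN r T := by
  refine le_iInf₂ fun U ⟨hU, hU'⟩ => ?_
  have : ∀ p ∈ P, ∃ u ∈ U, p ∈ u := fun p hp => by simpa using hU' (hP p hp)
  choose! f hf hf' using this
  refine Nat.cast_le.2 (Finset.card_le_card_of_injOn f hf fun p hp q hq e => ?_)
  by_contra hne
  have h1 := hs p hp q hq hne
  have h2 := hU _ (hf p hp) p (hf' p hp) q (e ▸ hf' q hq)
  linarith

lemma grow {c K a b : ℝ} (hc : 0 < c) (hb : 0 < b) (h : ∀ n : ℕ, c * a ^ n ≤ K * b ^ n) :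
    a ≤ b := by
  by_contra hab
  have h1 : 1 < a / b := (one_lt_div hb).2 (not_le.1 hab)
  obtain ⟨n, hn⟩ := pow_unbounded_of_one_lt (K / c) h1
  rw [div_pow, div_lt_div_iff₀ hc (pow_pos hb n)] at hn
  have := h n
  nlinarith

section sys

variable {lam : ℝ} {μ : Fin 2 → ℝ} {g D : ℝ} {S : Fin 2 → E d → E d} {F : Set (E d)}

/-- Upper bound for the covering numbers of parts of cylinders. -/
lemma Sys.cyl_le (h : Sys i0 i1 lam μ g D S F) {s t : ℝ} (hs : 0 < s) (hst : s < t) (ht : t < 1)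
    (e1 : 2 * lam ^ t = 1) (e2 : μ 0 ^ s + μ 1 ^ s = 1) {κ : ℝ} (hκ0 : 0 < κ) (hκ1 : κ ≤ 1)
    (hκl : κ ≤ lam) (hκm : ∀ b, κ ≤ μ b) (w : List (Fin 2)) {r : ℝ} (hr : 0 < r) {T : Set (E d)}
    (hT : ∀ p ∈ T, ∃ p' ∈ F, p = Sw S w p') :
    covN r T ≤ ENNReal.ofReal
      (1 + κ⁻¹ * ((D / r * lam ^ w.length) ^ t + (D / r * mw μ w) ^ s)) := by
  classical
  have hD := h.D0
  have hl := h.lam0
  have hm := mw_pos h w
  obtain ⟨U, a1, a2, a3, a4⟩ := h.cover' hs hst ht e1 e2 hκ0 hκ1 hκl hκm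
    (a := D / r * lam ^ w.length) (b := D / r * mw μ w) (by positivity) (by positivity)
  refine (covN_le (U.image (Sw S w '' ·)) ?_ ?_).trans ?_
  · simp only [Finset.mem_image]
    rintro _ ⟨u, hu, rfl⟩ _ ⟨x, hx, rfl⟩ _ ⟨y, hy, rfl⟩
    have h1 := a3 u hu x hx y hy
    rw [dg_smul, norm_smul, Real.norm_of_nonneg (by positivity), ← Sw_sub h, ← dist_eq_norm] at h1
    have h2 : D / r * dist (Sw S w x) (Sw S w y) ≤ D / r * r := by
      rw [div_mul_cancel₀ D hr.ne']; exact h1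
    exact le_of_mul_le_mul_left h2 (by positivity)
  · intro p hp
    obtain ⟨p', hp', rfl⟩ := hT p hp
    obtain ⟨u, hu, hpu⟩ := a4 p' hp'
    simp only [mem_iUnion, Finset.mem_image]
    exact ⟨_, ⟨u, hu, rfl⟩, p', hpu, rfl⟩
  · refine le_trans (Nat.cast_le.2 Finset.card_image_le) ?_
    rw [← ENNReal.ofReal_natCast]
    exact ENNReal.ofReal_le_ofReal a1

/-- Lower bounds for the covering numbers of sets which contain a cylinder. -/
lemma Sys.cyl_ge (h : Sys i0 i1 lam μ g D S F) {s t : ℝ} (hs : 0 < s) (hst : s < t)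
    (e1 : 2 * lam ^ t = 1) (e2 : μ 0 ^ s + μ 1 ^ s = 1) (w : List (Fin 2)) {r : ℝ} (hr : 0 < r)
    {T : Set (E d)} (hT : ∀ p ∈ F, Sw S w p ∈ T) :
    ENNReal.ofReal ((g / r * lam ^ w.length) ^ t) ≤ covN r T ∧
      ENNReal.ofReal ((g / r * mw μ w) ^ s) ≤ covN r T ∧ 1 ≤ covN r T := by
  classical
  have hg := h.g0
  have hl := h.lam0
  have hm := mw_pos h w
  obtain ⟨P, a0, a1, a2, a3, a4⟩ := h.sep' hs hst e1 e2
    (a := g / r * lam ^ w.length) (b := g / r * mw μ w) (by positivity) (by positivity)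
  have key : ∀ p ∈ P, ∀ q ∈ P, p ≠ q → r < dist (Sw S w p) (Sw S w q) := by
    intro p hp q hq hne
    have h1 := a2 p hp q hq hne
    rw [dg_smul, norm_smul, Real.norm_of_nonneg (by positivity), ← Sw_sub h, ← dist_eq_norm] at h1
    have h2 : g / r * r < g / r * dist (Sw S w p) (Sw S w q) := by
      rw [div_mul_cancel₀ g hr.ne']; exact h1
    exact lt_of_mul_lt_mul_left h2 (by positivity)
  have inj : Set.InjOn (Sw S w) (P : Set (E d)) := by
    intro p hp q hq e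
    by_contra hne
    have h1 := key p hp q hq hne
    rw [e, dist_self] at h1
    linarith
  have hcard : ((P.image (Sw S w)).card : ℝ≥0∞) ≤ covN r T := by
    refine le_covN _ ?_ ?_
    · simp only [Finset.mem_image]
      rintro _ ⟨p, hp, rfl⟩
      exact hT p (a1 p hp)
    · simp only [Finset.mem_image]
      rintro _ ⟨p, hp, rfl⟩ _ ⟨q, hq, rfl⟩ hne
      exact key p hp q hq fun e => hne (e ▸ rfl)
  rw [Finset.card_image_of_injOn inj] at hcard
  refine ⟨?_, ?_, ?_⟩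
  · refine le_trans (ENNReal.ofReal_le_ofReal a3) ?_
    rw [ENNReal.ofReal_natCast]
    exact hcard
  · refine le_trans (ENNReal.ofReal_le_ofReal a4) ?_
    rw [ENNReal.ofReal_natCast]
    exact hcard
  · refine le_trans ?_ hcard
    exact_mod_cast a0.card_pos

lemma Sys.dimA_le (h : Sys i0 i1 lam μ g D S F) {s t : ℝ} (hs : 0 < s) (hst : s < t) (ht : t < 1)
    (e1 : 2 * lam ^ t = 1) (e2 : μ 0 ^ s + μ 1 ^ s = 1) {κ : ℝ} (hκ0 : 0 < κ) (hκ1 : κ ≤ 1)
    (hκl : κ ≤ lam) (hκm : ∀ b, κ ≤ μ b) : dimA F ≤ ENNReal.ofReal t := by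
  have hg := h.g0
  have hD := h.D0
  have ht0 : 0 < t := hs.trans hst
  refine iInf₂_le t ⟨ht0.le, (1 + 2 * κ⁻¹) * (D / g) ^ t, by positivity, fun x hx r R hr hrR => ?_⟩
  have hR : 0 < R := hr.trans hrR
  obtain ⟨n, hn⟩ := pow_unbounded_of_one_lt (g / R) (one_lt_two (α := ℝ))
  have hn' : g * max 1 1 ≤ R * 2 ^ n := by
    rw [max_self, mul_one]
    rw [div_lt_iff₀ hR] at hn
    linarith
  obtain ⟨w, hw1, hw2⟩ := h.inCyl hR n 1 1 one_pos one_pos hn' x hx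
  rw [one_mul, one_mul] at hw1
  refine (h.cyl_le hs hst ht e1 e2 hκ0 hκ1 hκl hκm w hr (T := ball x R ∩ F) ?_).trans
    (ENNReal.ofReal_le_ofReal ?_)
  · rintro p ⟨hp1, hp2⟩
    refine hw2 p hp2 ?_
    rw [dg_one, ← dist_eq_norm]
    exact hp1
  have hX1 : 1 ≤ D / g * (R / r) := by
    have h1 : 1 ≤ D / g := (one_le_div hg).2 h.gD
    have h2 : 1 ≤ R / r := (one_le_div hr).2 hrR.le
    nlinarith
  have hb : ∀ y : ℝ, 0 < y → g * y ≤ R → D / r * y ≤ D / g * (R / r) := by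
    intro y hy hgy
    rw [div_mul_div_comm, div_mul_eq_mul_div, div_le_div_iff₀ hr (by positivity)]
    nlinarith [mul_le_mul_of_nonneg_left hgy (by positivity : (0:ℝ) ≤ D * r)]
  have hl := h.lam0
  have hm := mw_pos h w
  have k1 : D / r * lam ^ w.length ≤ D / g * (R / r) :=
    hb _ (by positivity) ((mul_le_mul_of_nonneg_left (le_max_left _ _) hg.le).trans hw1)
  have k2 : D / r * mw μ w ≤ D / g * (R / r) :=
    hb _ hm ((mul_le_mul_of_nonneg_left (le_max_right _ _) hg.le).trans hw1)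
  have k3 : (D / r * lam ^ w.length) ^ t ≤ (D / g * (R / r)) ^ t :=
    Real.rpow_le_rpow (by positivity) k1 ht0.le
  have k4 : (D / r * mw μ w) ^ s ≤ (D / g * (R / r)) ^ t :=
    (Real.rpow_le_rpow (by positivity) k2 hs.le).trans
      (Real.rpow_le_rpow_of_exponent_le hX1 hst.le)
  have k5 : 1 ≤ (D / g * (R / r)) ^ t := Real.one_le_rpow hX1 ht0.le
  have k6 : (1 + 2 * κ⁻¹) * (D / g) ^ t * (R / r) ^ t = (1 + 2 * κ⁻¹) * (D / g * (R / r)) ^ t := by
    rw [Real.mul_rpow (by positivity) (by positivity)]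
    ring
  rw [k6]
  have k7 : κ⁻¹ * ((D / r * lam ^ w.length) ^ t + (D / r * mw μ w) ^ s) ≤
      κ⁻¹ * ((D / g * (R / r)) ^ t + (D / g * (R / r)) ^ t) := by gcongr
  nlinarith

lemma Sys.le_dimL (h : Sys i0 i1 lam μ g D S F) {s t : ℝ} (hs : 0 < s) (hst : s < t)
    (e1 : 2 * lam ^ t = 1) (e2 : μ 0 ^ s + μ 1 ^ s = 1) {κ : ℝ} (hκ0 : 0 < κ) (hκ1 : κ ≤ 1)
    (hκl : κ ≤ lam) (hκm : ∀ b, κ ≤ μ b) : ENNReal.ofReal s ≤ dimL F := by
  have hg := h.g0
  have hD := h.D0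
  have ht0 : 0 < t := hs.trans hst
  refine le_iSup₂_of_le s ⟨hs.le, (κ * g / (2 * D)) ^ s, by positivity,
    fun x hx r R hr hrR hRd => ?_⟩ le_rfl
  have hR : 0 < R := hr.trans hrR
  have hRD : R ≤ D := hRd.trans (diam_le_of_forall_dist_le hD.le fun x hx y hy => by
    rw [dist_eq_norm]; exact h.hD x hx y hy)
  obtain ⟨n, hn⟩ := pow_unbounded_of_one_lt (2 * D / R) (one_lt_two (α := ℝ))
  have hn' : 2 * D * max 1 1 ≤ R * 2 ^ n := by
    rw [max_self, mul_one]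
    rw [div_lt_iff₀ hR] at hn
    linarith
  have hκR : κ * R ≤ 2 * D * max 1 1 := by
    rw [max_self, mul_one]
    nlinarith
  obtain ⟨w, y, hy, e, hw1, hw2⟩ := h.cylIn hκl hκm hR (by positivity : 0 < 2 * D) n 1 1 one_pos
    one_pos hn' hκR x hx
  rw [one_mul, one_mul] at hw1 hw2
  have hl := h.lam0
  have hm := mw_pos h w
  set M := max (lam ^ w.length) (mw μ w) with hM
  have hM0 : 0 < M := lt_max_of_lt_right hm
  obtain ⟨c1, c2, c3⟩ := h.cyl_ge hs hst e1 e2 w hr (T := ball x R ∩ F) (by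
    intro p hp
    refine ⟨?_, Sw_mem h w hp⟩
    rw [mem_ball, dist_eq_norm, e, Sw_sub h]
    refine (norm_dg_le (by positivity) hm.le _).trans_lt ?_
    have h1 := h.hD p hp y hy
    have h2 := norm_nonneg (p - y)
    rw [← hM]
    nlinarith)
  have key : ENNReal.ofReal ((g / r * M) ^ s) ≤ covN r (ball x R ∩ F) := by
    rcases le_total (lam ^ w.length) (mw μ w) with h1 | h1
    · rw [hM, max_eq_right h1]; exact c2
    · rw [hM, max_eq_left h1]
      rcases le_total 1 (g / r * lam ^ w.length) with h2 | h2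
      · exact (ENNReal.ofReal_le_ofReal (Real.rpow_le_rpow_of_exponent_le h2 hst.le)).trans c1
      · refine le_trans ?_ c3
        rw [← ENNReal.ofReal_one]
        exact ENNReal.ofReal_le_ofReal (Real.rpow_le_one (by positivity) h2 hs.le)
  refine le_trans (ENNReal.ofReal_le_ofReal ?_) key
  rw [← Real.mul_rpow (by positivity) (by positivity)]
  refine Real.rpow_le_rpow (by positivity) ?_ hs.le
  rw [div_mul_div_comm, div_mul_eq_mul_div, div_le_div_iff₀ (by positivity) hr]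
  have h3 : g * r * (κ * R) ≤ g * r * (2 * D * M) := by gcongr
  nlinarith

lemma Sys.le_dimA (h : Sys i0 i1 lam μ g D S F) {s t : ℝ} (hs : 0 < s) (hst : s < t)
    (e1 : 2 * lam ^ t = 1) (e2 : μ 0 ^ s + μ 1 ^ s = 1) : ENNReal.ofReal t ≤ dimA F := by
  have hg := h.g0
  have hD := h.D0
  refine le_iInf₂ fun s' ⟨hs', C, hC, hh⟩ => ENNReal.ofReal_le_ofReal ?_
  obtain ⟨x, hx⟩ := h.non
  have h2 : (2 : ℝ) ^ t ≤ 2 ^ s' := by
    refine grow (c := 1) (K := C * ((D + g) / g) ^ s') one_pos (by positivity) fun n => ?_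
    have hp : (0 : ℝ) < 2 ^ n := by positivity
    have hr : 0 < g / 2 ^ n := by positivity
    have hle : g / 2 ^ n ≤ g := div_le_self hg.le (one_le_pow₀ (by norm_num))
    have h3 := hh x hx (g / 2 ^ n) (D + g) hr (by linarith)
    obtain ⟨c1, -, -⟩ := h.cyl_ge hs hst e1 e2 [] hr (T := ball x (D + g) ∩ F) (by
      intro p hp
      refine ⟨?_, hp⟩
      rw [mem_ball, dist_eq_norm]
      have := h.hD p hp x hx
      simp only [Sw]
      linarith)
    have h4 := c1.trans h3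
    rw [ENNReal.ofReal_le_ofReal_iff (by positivity), List.length_nil, pow_zero, mul_one,
      show g / (g / 2 ^ n) = 2 ^ n by field_simp,
      show (D + g) / (g / 2 ^ n) = (D + g) / g * 2 ^ n by field_simp,
      Real.mul_rpow (by positivity) (by positivity), ← Real.rpow_pow_comm (by norm_num),
      ← Real.rpow_pow_comm (by norm_num)] at h4
    rw [one_mul, mul_assoc]
    exact h4
  by_contra hlt
  have h3 := Real.rpow_lt_rpow_of_exponent_lt (one_lt_two (α := ℝ)) (not_le.1 hlt)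
  linarith

lemma Sys.dimL_le (h : Sys i0 i1 lam μ g D S F) {s t : ℝ} (hs : 0 < s) (hst : s < t) (ht : t < 1)
    (e1 : 2 * lam ^ t = 1) (e2 : μ 0 ^ s + μ 1 ^ s = 1) {κ : ℝ} (hκ0 : 0 < κ) (hκ1 : κ ≤ 1)
    (hκl : κ ≤ lam) (hκm : ∀ b, κ ≤ μ b) (hlm : lam < μ 1) (hb : Bornology.IsBounded F) :
    dimL F ≤ ENNReal.ofReal s := by
  have hg := h.g0
  have hD := h.D0
  have hl := h.lam0
  have hm := h.mu0 1
  have ht0 : 0 < t := hs.trans hst
  refine iSup₂_le fun s' ⟨hs', C, hC, hh⟩ => ENNReal.ofReal_le_ofReal ?_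
  obtain ⟨q, hq⟩ := h.non
  have hgd : g ≤ diam F := by
    have h1 := h.gap_norm (a := 1) (b := 1) zero_le_one zero_le_one (c := 0) (c' := 1) (by decide)
      hq hq
    rw [dg_one, max_self, mul_one, ← dist_eq_norm] at h1
    exact h1.trans (dist_le_diam_of_mem hb (h.mem 0 q hq) (h.mem 1 q hq))
  have h2 : (2 : ℝ) ^ s' ≤ 2 ^ s := by
    refine grow (c := C * 2 ^ s') (K := (1 + κ⁻¹ + κ⁻¹ * (D / g) ^ s) * 2 ^ s) (by positivity)
      (by positivity) fun n => ?_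
    have hq1 : lam / μ 1 < 1 := (div_lt_one hm).2 hlm
    have hY : 0 < D / g * 2 ^ (n + 1) := by positivity
    obtain ⟨k, hk⟩ := exists_pow_lt_of_lt_one (inv_pos.2 hY) hq1
    have hμk : 0 < μ 1 ^ k := by positivity
    have hR : 0 < g * μ 1 ^ k := by positivity
    have h2n : (1 : ℝ) < 2 ^ (n + 1) := one_lt_pow₀ (by norm_num) (by omega)
    have hr : 0 < g * μ 1 ^ k / 2 ^ (n + 1) := by positivity
    have hrR : g * μ 1 ^ k / 2 ^ (n + 1) < g * μ 1 ^ k := div_lt_self hR h2n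
    have hRd : g * μ 1 ^ k ≤ diam F := by
      have : μ 1 ^ k ≤ 1 := pow_le_one₀ hm.le (by linarith [h.mu1 1])
      nlinarith
    have h3 := hh _ (Sw_mem h (List.replicate k 1) hq) _ _ hr hrR hRd
    have h4 := h.cyl_le hs hst ht e1 e2 hκ0 hκ1 hκl hκm (List.replicate k 1) hr
      (T := ball (Sw S (List.replicate k 1) q) (g * μ 1 ^ k) ∩ F) (by
        rintro p ⟨hp1, hp2⟩
        refine h.near k 1 1 one_pos one_pos q hq p hp2 ?_
        rw [dg_one, ← dist_eq_norm, one_mul]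
        exact hp1)
    have h5 := h3.trans h4
    have e3 : g * μ 1 ^ k / (g * μ 1 ^ k / 2 ^ (n + 1)) = 2 ^ (n + 1) := by field_simp
    have e4 : D / (g * μ 1 ^ k / 2 ^ (n + 1)) * lam ^ k =
        (lam / μ 1) ^ k * (D / g * 2 ^ (n + 1)) := by
      rw [div_pow]; field_simp
    have e5 : D / (g * μ 1 ^ k / 2 ^ (n + 1)) * μ 1 ^ k = D / g * 2 ^ (n + 1) := by
      field_simp
    rw [List.length_replicate, mw_replicate, e3, e4, e5,
      ENNReal.ofReal_le_ofReal_iff (by positivity)] at h5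
    have k1 : ((lam / μ 1) ^ k * (D / g * 2 ^ (n + 1))) ^ t ≤ 1 := by
      refine Real.rpow_le_one (by positivity) ?_ ht0.le
      have := mul_le_mul_of_nonneg_right hk.le hY.le
      rwa [inv_mul_cancel₀ hY.ne'] at this
    have k2 : (D / g * 2 ^ (n + 1)) ^ s = (D / g) ^ s * (2 ^ s * (2 ^ s) ^ n) := by
      rw [Real.mul_rpow (by positivity) (by positivity), ← Real.rpow_pow_comm (by norm_num),
        pow_succ']
    have k3 : (1 : ℝ) ≤ 2 ^ s * (2 ^ s) ^ n := by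
      rw [← pow_succ']
      exact one_le_pow₀ (Real.one_le_rpow (by norm_num) hs.le)
    have k4 : ((2 : ℝ) ^ (n + 1)) ^ s' = 2 ^ s' * (2 ^ s') ^ n := by
      rw [← Real.rpow_pow_comm (by norm_num), pow_succ']
    rw [k2, k4] at h5
    have k5 : κ⁻¹ * (((lam / μ 1) ^ k * (D / g * 2 ^ (n + 1))) ^ t +
        (D / g) ^ s * (2 ^ s * (2 ^ s) ^ n)) ≤ κ⁻¹ * (1 + (D / g) ^ s * (2 ^ s * (2 ^ s) ^ n)) := by
      gcongr
    have hκi : 0 < κ⁻¹ := inv_pos.2 hκ0
    calc C * 2 ^ s' * (2 ^ s') ^ n = C * (2 ^ s' * (2 ^ s') ^ n) := by ring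
      _ ≤ 1 + κ⁻¹ * (1 + (D / g) ^ s * (2 ^ s * (2 ^ s) ^ n)) := by linarith
      _ ≤ (1 + κ⁻¹ + κ⁻¹ * (D / g) ^ s) * 2 ^ s * (2 ^ s) ^ n := by nlinarith
  by_contra hlt
  have h3 := Real.rpow_lt_rpow_of_exponent_lt (one_lt_two (α := ℝ)) (not_le.1 hlt)
  linarith

end sys

end Pool.Agent.H60.AL
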