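import Pool.Agent.H60.AL.Dim

/-!
# Existence of the attractor, separation for almost all translations, choice of the maps
-/

set_option autoImplicit false

open Set MeasureTheory Metric
open scoped ENNReal NNReal

namespace Pool.Agent.H60.AL

variable {d : ℕ}

/-! ### Existence of the attractor -/

section exist
variable {m : ℕ} (A : Fin m → (E d →L[ℝ] E d)) (t : Fin m → E d)

/-- The affine map. -/
noncomputable def amap (i : Fin m) (x : E d) : E d := A i x + t i

theorem continuous_amap (i : Fin m) : Continuous (amap A t i) := by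
  unfold amap
  fun_prop

/-- The orbit of a point. -/
def orb (z : E d) : Set (E d) := {p | ∃ w : List (Fin m), p = w.foldr (fun i x => amap A t i x) z}

theorem orb_eq (z : E d) (i0 : Fin m) (hz : amap A t i0 z = z) :
    orb A t z = ⋃ i, amap A t i '' orb A t z := by
  apply Set.Subset.antisymm
  · rintro _ ⟨w, rfl⟩
    cases w with
    | nil =>
      refine mem_iUnion.2 ⟨i0, z, ⟨[], rfl⟩, ?_⟩
      exact hz
    | cons i w =>
      exact mem_iUnion.2 ⟨i, _, ⟨w, rfl⟩, rfl⟩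
  · intro p hp
    obtain ⟨i, q, ⟨w, rfl⟩, rfl⟩ := mem_iUnion.1 hp
    exact ⟨i :: w, rfl⟩

theorem exists_attractor (i0 : Fin m) (hA : ∀ i, ‖A i‖ < 1/2) : ∃ F, IsAttractor A t F := by
  have hcon : ContractingWith (1/2 : ℝ≥0) (amap A t i0) := by
    refine ⟨by rw [← NNReal.coe_lt_coe]; norm_num, ?_⟩
    refine LipschitzWith.of_dist_le_mul (fun x y => ?_)
    unfold amap
    rw [dist_add_right, dist_eq_norm, ← map_sub, dist_eq_norm]
    refine ((A i0).le_opNorm _).trans ?_
    refine mul_le_mul_of_nonneg_right ?_ (norm_nonneg _)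
    have := (hA i0).le
    norm_num at this ⊢
    exact this
  obtain ⟨z, hz, -⟩ := hcon.exists_fixedPoint (0 : E d) (edist_ne_top _ _)
  obtain ⟨B, hB⟩ : ∃ B : ℝ, ∀ i, ‖t i‖ ≤ B := by
    refine ⟨∑ i, ‖t i‖, fun i => ?_⟩
    exact Finset.single_le_sum (f := fun i => ‖t i‖) (fun i _ => norm_nonneg _) (Finset.mem_univ i)
  have hB0 : 0 ≤ B := (norm_nonneg _).trans (hB i0)
  have hbd : ∀ w : List (Fin m), ‖w.foldr (fun i x => amap A t i x) z‖ ≤ 2 * B + ‖z‖ := by
    intro w
    induction w with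
    | nil => simp; positivity
    | cons i w ih =>
      simp only [List.foldr_cons]
      set y := w.foldr (fun i x => amap A t i x) z
      unfold amap
      refine (norm_add_le _ _).trans ?_
      have h1 := (A i).le_opNorm y
      have h2 : ‖A i‖ * ‖y‖ ≤ 1/2 * (2 * B + ‖z‖) :=
        mul_le_mul (hA i).le ih (norm_nonneg _) (by norm_num)
      have h3 := hB i
      have h4 := norm_nonneg z
      linarith
  have hbdd : Bornology.IsBounded (orb A t z) := by
    rw [isBounded_iff_forall_norm_le]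
    refine ⟨2 * B + ‖z‖, ?_⟩
    rintro _ ⟨w, rfl⟩
    exact hbd w
  refine ⟨closure (orb A t z), ⟨z, subset_closure ⟨[], rfl⟩⟩, hbdd.isCompact_closure, ?_⟩
  have hcl : ∀ i, closure (amap A t i '' orb A t z) = amap A t i '' closure (orb A t z) := by
    intro i
    apply Set.Subset.antisymm
    · exact closure_minimal (Set.image_mono subset_closure)
        ((hbdd.isCompact_closure.image (continuous_amap A t i)).isClosed)
    · exact image_closure_subset_closure_image (continuous_amap A t i)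
  conv_lhs => rw [orb_eq A t z i0 hz, closure_iUnion_of_finite]
  simp only [hcl]
  rfl

end exist

/-! ### Separation -/

/-- Separation in one coordinate. -/
lemma gap1 {F : Set (E d)} (hc : IsCompact F) (hn : F.Nonempty) (i : Fin d) (r : Fin 2 → ℝ)
    (r0 : ∀ b, 0 < r b) (r1 : ∀ b, r b < 1 / 2) (v : Fin 2 → E d) (S : Fin 2 → E d → E d)
    (hS : ∀ b x, S b x i = r b * x i + v b i) (hF : ∀ x ∈ F, ∃ b, ∃ y ∈ F, x = S b y)
    (hne : 1 / (1 - r 0) * v 0 i ≠ 1 / (1 - r 1) * v 1 i) :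
    ∃ γ > 0, ∀ b c, b ≠ c → ∀ p ∈ F, ∀ q ∈ F, γ ≤ |(S b p - S c q) i| := by
  set c : Fin 2 → ℝ := fun b => 1 / (1 - r b) * v b i with hcdef
  have hv : ∀ b, v b i = c b * (1 - r b) := by
    intro b
    have : 1 - r b ≠ 0 := by linarith [r1 b]
    simp only [hcdef]
    field_simp
  have hcont : Continuous fun x : E d => x i := by fun_prop
  obtain ⟨M, hM, hmax⟩ := hc.exists_isMaxOn hn hcont.continuousOn
  obtain ⟨N, hN, hmin⟩ := hc.exists_isMinOn hn hcont.continuousOn
  have hup : ∀ x ∈ F, x i ≤ max (c 0) (c 1) := by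
    intro x hx
    refine (hmax hx).trans ?_
    obtain ⟨b, y, hy, e⟩ := hF M hM
    have h1 : y i ≤ M i := hmax hy
    have h2 : M i = r b * y i + c b * (1 - r b) := by rw [e, hS, hv]
    have h3 : M i ≤ c b := by
      have h4 := r0 b
      have h5 := r1 b
      nlinarith
    refine h3.trans ?_
    fin_cases b
    · exact le_max_left _ _
    · exact le_max_right _ _
  have hlo : ∀ x ∈ F, min (c 0) (c 1) ≤ x i := by
    intro x hx
    refine le_trans ?_ (hmin hx)
    obtain ⟨b, y, hy, e⟩ := hF N hN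
    have h1 : N i ≤ y i := hmin hy
    have h2 : N i = r b * y i + c b * (1 - r b) := by rw [e, hS, hv]
    have h3 : c b ≤ N i := by
      have h4 := r0 b
      have h5 := r1 b
      nlinarith
    refine le_trans ?_ h3
    fin_cases b
    · exact min_le_left _ _
    · exact min_le_right _ _
  have a0 := r0 0
  have a1 := r1 0
  have b0 := r0 1
  have b1 := r1 1
  have hδ : 0 < |c 0 - c 1| := abs_pos.2 (sub_ne_zero.2 hne)
  have h01 : ∀ p ∈ F, ∀ q ∈ F, (1 - r 0 - r 1) * |c 0 - c 1| ≤ |(S 0 p - S 1 q) i| := by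
    intro p hp q hq
    rw [PiLp.sub_apply, hS, hS, hv, hv]
    have p1 := hup p hp
    have p2 := hlo p hp
    have q1 := hup q hq
    have q2 := hlo q hq
    rcases le_total (c 0) (c 1) with h | h
    · rw [max_eq_right h] at p1 q1
      rw [min_eq_left h] at p2 q2
      rw [abs_sub_comm (c 0) (c 1), abs_of_nonneg (sub_nonneg.2 h), abs_sub_comm]
      refine le_trans ?_ (le_abs_self _)
      nlinarith
    · rw [max_eq_left h] at p1 q1
      rw [min_eq_right h] at p2 q2
      rw [abs_of_nonneg (sub_nonneg.2 h)]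
      refine le_trans ?_ (le_abs_self _)
      nlinarith
  refine ⟨(1 - r 0 - r 1) * |c 0 - c 1|, by have : 0 < 1 - r 0 - r 1 := by linarith
                                            positivity, ?_⟩
  intro b b' hb p hp q hq
  fin_cases b <;> fin_cases b'
  · exact absurd rfl hb
  · exact h01 p hp q hq
  · have h10 := h01 q hq p hp
    have e : |(S 1 p - S 0 q) i| = |(S 0 q - S 1 p) i| := by
      rw [PiLp.sub_apply, PiLp.sub_apply, abs_sub_comm]
    exact h10.trans (le_of_eq e.symm)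
  · exact absurd rfl hb

/-- Almost all translations are not in a given proper subspace. -/
theorem null (c c' : ℝ) (hc : c ≠ 0) (i : Fin d) : ∀ᵐ t : Fin 2 → E d, c * t 0 i ≠ c' * t 1 i := by
  let f : (Fin 2 → E d) →ₗ[ℝ] ℝ :=
    { toFun := fun t => c * t 0 i - c' * t 1 i
      map_add' := fun x y => by simp; ring
      map_smul' := fun r x => by simp; ring }
  have h := Measure.addHaar_submodule (volume : Measure (Fin 2 → E d)) (LinearMap.ker f) (by
    intro e
    have : (![EuclideanSpace.single i 1, 0] : Fin 2 → E d) ∈ LinearMap.ker f := e ▸ Submodule.mem_top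
    simp [f, hc] at this)
  rw [ae_iff]
  refine measure_mono_null (fun t ht => ?_) h
  simp only [ne_eq, not_not, mem_ofPred_eq] at ht
  simp [f, ht]

/-! ### The maps -/

lemma dg_norm_lt {i0 : Fin d} {a b : ℝ} (ha : 0 < a) (hb : 0 < b) (ha1 : a < 1 / 2)
    (hb1 : b < 1 / 2) : ‖dg i0 a b‖ < 1 / 2 := by
  refine (ContinuousLinearMap.opNorm_le_bound _ (le_max_of_le_left ha.le)
    fun x => norm_dg_le ha.le hb.le x).trans_lt (max_lt ha1 hb1)

lemma dg_bij {i0 : Fin d} {a b : ℝ} (ha : 0 < a) (hb : 0 < b) :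
    Function.Bijective (dg i0 a b) := by
  have h1 : ∀ x, dg i0 a⁻¹ b⁻¹ (dg i0 a b x) = x := fun x => by
    rw [dg_dg, inv_mul_cancel₀ ha.ne', inv_mul_cancel₀ hb.ne', dg_one]
  have h2 : ∀ x, dg i0 a b (dg i0 a⁻¹ b⁻¹ x) = x := fun x => by
    rw [dg_dg, mul_inv_cancel₀ ha.ne', mul_inv_cancel₀ hb.ne', dg_one]
  exact ⟨Function.LeftInverse.injective h1, Function.RightInverse.surjective h2⟩

/-- The ratios. -/
lemma exists_params {s t : ℝ} (hs : 0 < s) (hst : s < t) (ht : t < 1) :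
    ∃ lam m0 m1 : ℝ, 0 < lam ∧ lam < 1 / 2 ∧ 0 < m0 ∧ m0 < 1 / 2 ∧ lam < m1 ∧ m1 < 1 / 2 ∧
      2 * lam ^ t = 1 ∧ m0 ^ s + m1 ^ s = 1 := by
  have ht0 : 0 < t := hs.trans hst
  have hs1 : s < 1 := hst.trans ht
  set lam : ℝ := (1 / 2 : ℝ) ^ (1 / t) with hlam
  have l0 : 0 < lam := Real.rpow_pos_of_pos (by norm_num) _
  have l1 : lam < 1 / 2 := by
    have h1 : (1 / 2 : ℝ) ^ (1 / t) < (1 / 2 : ℝ) ^ (1 : ℝ) :=
      Real.rpow_lt_rpow_of_exponent_gt (by norm_num) (by norm_num) ((one_lt_div ht0).2 ht)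
    rwa [Real.rpow_one] at h1
  have l2 : lam ^ t = 1 / 2 := by
    rw [hlam, ← Real.rpow_mul (by norm_num), one_div_mul_cancel ht0.ne', Real.rpow_one]
  set m1 : ℝ := (lam + 1 / 2) / 2 with hm1
  have m10 : 0 < m1 := by rw [hm1]; linarith
  have m11 : m1 < 1 / 2 := by rw [hm1]; linarith
  have m12 : lam < m1 := by rw [hm1]; linarith
  have k1 : m1 ^ s < 1 := Real.rpow_lt_one m10.le (by linarith) hs
  have k2 : 1 / 2 < m1 ^ s := by
    have h1 : lam ^ t < lam ^ s := Real.rpow_lt_rpow_of_exponent_gt l0 (by linarith) hst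
    have h2 : lam ^ s < m1 ^ s := Real.rpow_lt_rpow l0.le m12 hs
    linarith
  have k3 : 1 / 2 < (1 / 2 : ℝ) ^ s := by
    have h1 : (1 / 2 : ℝ) ^ (1 : ℝ) < (1 / 2 : ℝ) ^ s :=
      Real.rpow_lt_rpow_of_exponent_gt (by norm_num) (by norm_num) hs1
    rwa [Real.rpow_one] at h1
  have k4 : 0 < 1 - m1 ^ s := by linarith
  have m00 : 0 < (1 - m1 ^ s) ^ (1 / s) := Real.rpow_pos_of_pos k4 _
  have m02 : ((1 - m1 ^ s) ^ (1 / s)) ^ s = 1 - m1 ^ s := by
    rw [← Real.rpow_mul k4.le, one_div_mul_cancel hs.ne', Real.rpow_one]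
  refine ⟨lam, (1 - m1 ^ s) ^ (1 / s), m1, l0, l1, m00, ?_, m12, m11, by rw [l2]; norm_num,
    by rw [m02]; ring⟩
  by_contra hcon
  have h1 := Real.rpow_le_rpow (by norm_num) (not_lt.1 hcon) hs.le
  rw [m02] at h1
  linarith

/-- The main theorem. -/
theorem main (hd : 2 ≤ d) {s t : ℝ} (hs : 0 < s) (hst : s < t) (ht : t < 1) :
    ∃ A : Fin 2 → E d →L[ℝ] E d, (∀ i, Function.Bijective (A i) ∧ ‖A i‖ < 1 / 2) ∧
      (∀ v, ∃ F, IsAttractor A v F) ∧
      ∀ᵐ v : Fin 2 → E d, ∀ F, IsAttractor A v F →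
        dimL F = ENNReal.ofReal s ∧ dimA F = ENNReal.ofReal t := by
  obtain ⟨lam, m0, m1, l0, l1, m00, m01, lm, m11, e1, e2⟩ := exists_params hs hst ht
  have m10 : 0 < m1 := l0.trans lm
  set i0 : Fin d := ⟨0, by omega⟩ with hi0
  set i1 : Fin d := ⟨1, by omega⟩ with hi1
  have hne : i1 ≠ i0 := by
    intro h
    have := congrArg Fin.val h
    simp [hi0, hi1] at this
  set μ : Fin 2 → ℝ := ![m0, m1] with hμ
  have hμ0 : ∀ b, 0 < μ b := by
    intro b
    fin_cases b
    · exact m00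
    · exact m10
  have hμ1 : ∀ b, μ b < 1 / 2 := by
    intro b
    fin_cases b
    · exact m01
    · exact m11
  have hA : ∀ i, Function.Bijective (dg i0 lam (μ i)) ∧ ‖dg i0 lam (μ i)‖ < 1 / 2 := fun i =>
    ⟨dg_bij l0 (hμ0 i), dg_norm_lt l0 (hμ0 i) l1 (hμ1 i)⟩
  refine ⟨fun b => dg i0 lam (μ b), hA, fun v => exists_attractor _ v 0 fun i => (hA i).2, ?_⟩
  have hn0 : (1 : ℝ) / (1 - lam) ≠ 0 := by
    have : 0 < 1 - lam := by linarith
    positivity
  have hn1 : (1 : ℝ) / (1 - μ 0) ≠ 0 := by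
    have : 0 < 1 - μ 0 := by linarith [hμ1 0]
    positivity
  filter_upwards [null (1 / (1 - lam)) (1 / (1 - lam)) hn0 i0,
    null (1 / (1 - μ 0)) (1 / (1 - μ 1)) hn1 i1] with v hv0 hv1 F hF
  obtain ⟨hFn, hFc, hFe⟩ := hF
  let S : Fin 2 → E d → E d := fun b x => dg i0 lam (μ b) x + v b
  have hmem : ∀ b, ∀ x ∈ F, S b x ∈ F := fun b x hx => by
    rw [hFe]
    exact mem_iUnion.2 ⟨b, x, hx, rfl⟩
  have hcov : ∀ x ∈ F, ∃ b, ∃ y ∈ F, x = S b y := by
    intro x hx
    rw [hFe] at hx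
    obtain ⟨b, y, hy, e⟩ := mem_iUnion.1 hx
    exact ⟨b, y, hy, e.symm⟩
  obtain ⟨γ, hγ, g1⟩ := gap1 hFc hFn i0 (fun _ => lam) (fun _ => l0) (fun _ => l1) v S
    (fun b x => by simp only [S, PiLp.add_apply, dg_apply, if_true]) hcov hv0
  obtain ⟨γ', hγ', g2⟩ := gap1 hFc hFn i1 μ hμ0 hμ1 v S
    (fun b x => by simp only [S, PiLp.add_apply, dg_apply, if_neg hne]) hcov hv1
  have hsys : Sys i0 i1 lam μ (min γ γ') (diam F) S F :=
    { hne := hne
      lam0 := l0
      lam1 := l1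
      mu0 := hμ0
      mu1 := hμ1
      sub := fun b x y => by simp only [S]; rw [map_sub]; abel
      mem := hmem
      cov := hcov
      gap := fun b c hbc p hp q hq =>
        ⟨(min_le_left _ _).trans (g1 b c hbc p hp q hq),
          (min_le_right _ _).trans (g2 b c hbc p hp q hq)⟩
      g0 := lt_min hγ hγ'
      hD := fun x hx y hy => by
        rw [← dist_eq_norm]; exact dist_le_diam_of_mem hFc.isBounded hx hy
      non := hFn }
  have e2' : μ 0 ^ s + μ 1 ^ s = 1 := e2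
  have hκ0 : 0 < min lam (min m0 m1) := lt_min l0 (lt_min m00 m10)
  have hκl : min lam (min m0 m1) ≤ lam := min_le_left _ _
  have hκ1 : min lam (min m0 m1) ≤ 1 := hκl.trans (by linarith)
  have hκm : ∀ b, min lam (min m0 m1) ≤ μ b := by
    intro b
    fin_cases b
    · exact (min_le_right _ _).trans (min_le_left _ _)
    · exact (min_le_right _ _).trans (min_le_right _ _)
  exact ⟨le_antisymm (hsys.dimL_le hs hst ht e1 e2' hκ0 hκ1 hκl hκm lm hFc.isBounded)
      (hsys.le_dimL hs hst e1 e2' hκ0 hκ1 hκl hκm),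
    le_antisymm (hsys.dimA_le hs hst ht e1 e2' hκ0 hκ1 hκl hκm) (hsys.le_dimA hs hst e1 e2')⟩

end Pool.Agent.H60.AL
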